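import Pool.Agent.Hp428.SS.Loc
import Pool.Agent.Hp428.TH.Main
import Pool.Agent.W29.RT.Loc

set_option autoImplicit false

/-!
# Zeros of sums and differences of two shifts: abstract form
-/

namespace Pool.Agent.Hp428.TS

open Complex Filter Topology Set MeasureTheory
open Pool.Agent.H24R2.DZ (NN)
open Pool.Agent.Hp428.TD
open Pool.Agent.Hp428.TH (ell ell_ge)
open Pool.Agent.Hp428.SS

/-- the sum of two shifts in local coordinates -/
theorem fs_loc {σ b r y : ℝ} (hr : 0 < r) (G : ℂ → ℂ) (z : ℂ) :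
    FS σ (b / r) (fun z => G (I * y + r * z)) z = FS σ b G (I * y + r * z) := by
  have hrc : (r : ℂ) ≠ 0 := by exact_mod_cast hr.ne'
  unfold FS
  have e1 : I * (y : ℂ) + r * (z + ((b / r : ℝ) : ℂ)) = I * y + r * z + b := by
    push_cast
    field_simp
    ring
  have e2 : I * (y : ℂ) + r * (z - ((b / r : ℝ) : ℂ)) = I * y + r * z - b := by
    push_cast
    field_simp
    ring
  beta_reduce
  rw [e1, e2]

theorem fs_loc1 {σ b y : ℝ} (hb : 0 < b) (G : ℂ → ℂ) (z : ℂ) :
    FS σ 1 (fun z => G (I * y + b * z)) z = FS σ b G (I * y + b * z) := by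
  have h := fs_loc (σ := σ) (b := b) (y := y) hb G z
  rwa [div_self hb.ne'] at h

theorem fs_loc1_deriv {σ b y : ℝ} (hb : 0 < b) (G : ℂ → ℂ) (z : ℂ) :
    deriv (FS σ 1 (fun z => G (I * y + b * z))) z = b * deriv (FS σ b G) (I * y + b * z) := by
  have hf : FS σ 1 (fun z => G (I * y + b * z)) = fun z => FS σ b G (I * y + b * z) :=
    funext (fs_loc1 hb G)
  rw [hf]
  have h := deriv_comp_mul_left (b : ℂ) (fun w : ℂ => FS σ b G (I * y + w)) z
  rw [smul_eq_mul, deriv_comp_const_add] at h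
  exact h

theorem el_half {L : ℝ} (hL : 1 ≤ L) (y : ℝ) : 1 / 2 ≤ el L y := by
  unfold el
  have h1 := Real.log_nonneg hL
  have h2 : Real.log 2 ≤ Real.log (2 + |y|) := Real.log_le_log (by norm_num) (by
    have := abs_nonneg y
    linarith)
  have := Real.log_two_gt_d9
  linarith

/-- `el` at a nearby point -/
theorem el_close {L y y' : ℝ} (hL : 1 ≤ L) (hy : |y' - y| ≤ 1 / 25) : el L y' ≤ 2 * el L y := by
  have hy0 := abs_nonneg y
  have hy1 := abs_nonneg y'
  have h1 : |y'| ≤ |y' - y| + |y| := by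
    calc |y'| = |(y' - y) + y| := by ring_nf
      _ ≤ _ := abs_add_le _ _
  have h2 : 2 + |y'| ≤ (2 + |y|) * (1 + 1 / 50) := by linarith
  have h3 := Real.log_le_log (by linarith) h2
  rw [Real.log_mul (by positivity) (by norm_num)] at h3
  have h4 : Real.log (1 + 1 / 50) ≤ 1 / 50 := by
    have := Real.log_le_sub_one_of_pos (x := (1 + 1 / 50 : ℝ)) (by norm_num)
    linarith
  have h5 := el_half hL y
  have h6 : el L y' ≤ el L y + 1 / 50 := by unfold el; linarith
  linarith

/-- the local situation at all scales `r ≥ b` -/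
theorem nn_all {K : ℝ} (hK : 1 ≤ K) {η : ℝ} (hη : 0 < η) : ∃ K2 L0 : ℝ, 1 ≤ K2 ∧ 100 ≤ L0 ∧
    ∀ (L Q : ℝ) (R G : ℂ → ℂ), L0 ≤ L → GQ L K Q R G → ∀ b y : ℝ, 0 < b → b ≤ 1 / 2 →
      K2 * el L y ≤ b * L →
      (∀ r : ℝ, b ≤ r → ∃ m : ℝ, 0 < m ∧ NN m η (fun z => G (I * y + r * z))) ∧
      ∃ Om : ℝ, ell L y ≤ Om ∧ Om ≤ ell L y + Real.log L ∧ 5 ≤ b * Om ∧
        NN (b * Om) η (fun z => G (I * y + b * z)) := by
  obtain ⟨K2, L0, hK2, hL0, hN⟩ := st_all hK hη 1
  refine ⟨K2 + 20, L0, by linarith, hL0, fun L Q R G hL H b y hb hb1 hn => ?_⟩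
  have hL100 : 100 ≤ L := hL0.trans hL
  have hel := el_half (L := L) (by linarith) y
  have hbL : 10 ≤ b * L := by
    have : 0 ≤ K2 * el L y := by positivity
    nlinarith
  have hf1 : (⌊b * L⌋₊ : ℝ) ≤ b * L := Nat.floor_le (by positivity)
  have hf2 : b * L < ⌊b * L⌋₊ + 1 := Nat.lt_floor_add_one _
  have hK2n : K2 * el L y ≤ (⌊b * L⌋₊ : ℝ) := by
    have : (1 : ℝ) ≤ 20 * el L y := by linarith
    linarith
  constructor
  · intro r hr
    have hr0 : 0 < r := lt_of_lt_of_le hb hr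
    obtain ⟨n, hnd⟩ : ∃ n : ℕ, n = max ⌊b * L⌋₊ ⌈r⌉₊ := ⟨_, rfl⟩
    have hn1 : (⌊b * L⌋₊ : ℝ) ≤ n := by rw [hnd]; exact_mod_cast le_max_left _ _
    have hn2 : r ≤ n := (Nat.le_ceil r).trans (by rw [hnd]; exact_mod_cast le_max_right _ _)
    obtain ⟨-, -, h3, h4⟩ := hN L Q R G hL H n y (hK2n.trans hn1)
    have hrL : b * L ≤ r * L := by gcongr
    have hn3 : (n : ℝ) ≤ r * L := by
      have h5 : (⌈r⌉₊ : ℝ) ≤ r * L := by
        have h6 := (Nat.ceil_lt_add_one hr0.le).le
        have h7 : r * 100 ≤ r * L := by gcongr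
        linarith
      rw [hnd]
      push_cast
      exact max_le (hf1.trans hrL) h5
    have hrO : r * L ≤ r * Oq L y n := by gcongr
    refine ⟨_, ?_, h4 r (hn3.trans hrO) (by linarith)⟩
    have : 0 < r * L := by positivity
    linarith
  · obtain ⟨h1, h2, h3, h4⟩ := hN L Q R G hL H ⌊b * L⌋₊ y hK2n
    have hbO : b * L ≤ b * Oq L y ⌊b * L⌋₊ := by gcongr
    have hn0 : (0 : ℝ) ≤ (⌊b * L⌋₊ : ℝ) := Nat.cast_nonneg _
    have hy0 := abs_nonneg y
    refine ⟨Oq L y ⌊b * L⌋₊, ?_, ?_, by linarith, h4 b (hf1.trans hbO) (by linarith)⟩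
    · unfold ell Oq
      have := Real.log_le_log (x := 2 + |y|) (y := 2 + |y| + (⌊b * L⌋₊ : ℝ)) (by linarith) (by linarith)
      linarith
    · have h5 : 2 + |y| + (⌊b * L⌋₊ : ℝ) ≤ (2 + |y|) * L := by
        have h6 : (⌊b * L⌋₊ : ℝ) ≤ 1 / 2 * L := hf1.trans (by gcongr)
        have h7 : (2 + |y|) * 2 ≤ (2 + |y|) * L := by gcongr; linarith
        nlinarith
      have h8 := Real.log_le_log (by linarith) h5
      rw [Real.log_mul (by positivity) (by positivity)] at h8
      unfold ell Oq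
      linarith

/-- all zeros are simple and on the line -/
theorem not_bad {K : ℝ} (hK : 1 ≤ K) : ∃ K2 L0 : ℝ, 1 ≤ K2 ∧ 100 ≤ L0 ∧
    ∀ (L Q : ℝ) (R G : ℂ → ℂ), L0 ≤ L → GQ L K Q R G → ∀ (b σ : ℝ) (s : ℂ), σ = 1 ∨ σ = -1 →
      0 < b → b ≤ 1 / 2 → K2 * el L s.im ≤ b * L → FS σ b G s = 0 →
      s.re = 0 ∧ deriv (FS σ b G) s ≠ 0 := by
  obtain ⟨K2, L0, hK2, hL0, hN⟩ := nn_all hK (η := 1 / 1000) (by norm_num)
  refine ⟨K2, L0, hK2, hL0, fun L Q R G hL H b σ s hσ hb hb1 hn hz => ?_⟩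
  obtain ⟨hA, Om, hO1, hO2, hO3, hB⟩ := hN L Q R G hL H b s.im hb hb1 hn
  have hcoord : ∀ r : ℝ, 0 < r → I * (s.im : ℂ) + r * ((s.re / r : ℝ) : ℂ) = s := by
    intro r hr
    have : ((s.re / r : ℝ) : ℂ) = (s.re : ℂ) / r := by push_cast; ring
    rw [this, mul_div_cancel₀ _ (by exact_mod_cast hr.ne'), mul_comm I, add_comm, Complex.re_add_im]
  rcases le_or_gt |s.re| (3 * b) with h1 | h1
  · have hd : ‖((s.re / b : ℝ) : ℂ)‖ ≤ 18 := by
      rw [Complex.norm_real, Real.norm_eq_abs, abs_div, abs_of_pos hb, div_le_iff₀ hb]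
      linarith
    obtain ⟨h2, h3⟩ := line_simple hσ (by linarith) (by norm_num) le_rfl hB hd (by
      rw [fs_loc1 hb, hcoord b hb]
      exact hz)
    rw [fs_loc1_deriv hb, hcoord b hb] at h3
    rw [ofReal_re, div_eq_zero_iff] at h2
    exact ⟨h2.resolve_right hb.ne', right_ne_zero_of_mul h3⟩
  · exfalso
    have hr : b ≤ |s.re| / 3 := by linarith
    have hr0 : 0 < |s.re| / 3 := by linarith
    have hs0 : 0 < |s.re| := by linarith
    obtain ⟨m, hm, hNr⟩ := hA (|s.re| / 3) hr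
    have h3 : |s.re / (|s.re| / 3)| = 3 := by
      rw [abs_div, abs_of_pos hr0]
      field_simp
    have hδ1 : b / (|s.re| / 3) ≤ 1 := by rw [div_le_one hr0]; exact hr
    refine far_free (δ := b / (|s.re| / 3)) hσ hm (by norm_num) hNr (by positivity) hδ1
      (z := ((s.re / (|s.re| / 3) : ℝ) : ℂ)) ?_ ?_ ?_
    · rw [ofReal_re, h3]
      linarith
    · rw [Complex.norm_real, Real.norm_eq_abs, h3]
      norm_num
    · rw [fs_loc hr0, hcoord _ hr0]
      exact hz

/-- **Abstract theorem**: all zeros of sums of two shifts are simple, on the line and equally spaced,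
and there are such zeros. -/
theorem shift_abs {K : ℝ} (hK : 1 ≤ K) {ε : ℝ} (hε : 0 < ε) : ∃ K2 L0 : ℝ, 1 ≤ K2 ∧ 100 ≤ L0 ∧
    ∀ (L Q : ℝ) (R G : ℂ → ℂ), L0 ≤ L → GQ L K Q R G → ∀ (b σ : ℝ), σ = 1 ∨ σ = -1 →
      0 < b → b ≤ 1 / 2 →
      (∀ y : ℝ, K2 * el L y ≤ b * L → ∃ y' : ℝ, y ≤ y' ∧ y' ≤ y + 5 / ell L y ∧
        FS σ b G (I * y') = 0) ∧
      (∀ s : ℂ, K2 * el L s.im ≤ b * L → FS σ b G s = 0 →
        s.re = 0 ∧ deriv (FS σ b G) s ≠ 0 ∧ ∃ g : ℝ, 0 < g ∧ |g * ell L s.im - Real.pi| ≤ ε ∧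
          FS σ b G (s + g * I) = 0 ∧ deriv (FS σ b G) (s + g * I) ≠ 0 ∧
          ∀ z : ℂ, FS σ b G z = 0 → s.im ≤ z.im → z.im ≤ s.im + g → z = s ∨ z = s + g * I) := by
  obtain ⟨e, he⟩ : ∃ e : ℝ, e = min ε 1 / 2 := ⟨_, rfl⟩
  have he0 : 0 < e := by
    have := lt_min hε one_pos
    rw [he]; positivity
  have he1 : e ≤ 1 / 2 := by
    have := min_le_right ε 1
    rw [he]; linarith
  have heε : 2 * e ≤ ε := by
    have := min_le_left ε 1
    rw [he]; linarith
  obtain ⟨K2a, L0a, hK2a, hL0a, hnb⟩ := not_bad hK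
  obtain ⟨K2b, L0b, hK2b, hL0b, hN⟩ := nn_all hK (η := min (e / 256) (1 / 40))
    (lt_min (by positivity) (by norm_num))
  have hlog : ∃ L1 : ℝ, ∀ x : ℝ, L1 ≤ x → 4 * Real.log x ≤ e * x := by
    have h := Real.isLittleO_log_id_atTop.bound (show 0 < e / 4 by positivity)
    obtain ⟨M, hM⟩ := eventually_atTop.1 (h.and (eventually_ge_atTop (1 : ℝ)))
    refine ⟨M, fun x hx => ?_⟩
    obtain ⟨h1, h2⟩ := hM x hx
    simp only [id, Real.norm_eq_abs] at h1
    rw [abs_of_nonneg (Real.log_nonneg h2), abs_of_nonneg (by linarith)] at h1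
    linarith
  obtain ⟨L1, hL1⟩ := hlog
  refine ⟨2 * max K2a K2b, max L1 (max L0a L0b), ?_, ?_, fun L Q R G hL H b σ hσ hb hb1 => ?_⟩
  · have := le_max_left K2a K2b
    linarith
  · exact (hL0a.trans (le_max_left _ _)).trans (le_max_right _ _)
  have hLa : L0a ≤ L := ((le_max_left _ _).trans (le_max_right _ _)).trans hL
  have hLb : L0b ≤ L := ((le_max_right _ _).trans (le_max_right _ _)).trans hL
  have hLc : L1 ≤ L := (le_max_left _ _).trans hL
  have hL100 : 100 ≤ L := hL0a.trans hLa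
  have hcond : ∀ y : ℝ, 2 * max K2a K2b * el L y ≤ b * L → K2b * el L y ≤ b * L ∧
      ∀ y' : ℝ, |y' - y| ≤ 1 / 25 → K2a * el L y' ≤ b * L := by
    intro y hy
    have h0 := el_half (L := L) (by linarith) y
    have hm1 := le_max_left K2a K2b
    have hm2 := le_max_right K2a K2b
    constructor
    · refine le_trans ?_ hy
      gcongr
      linarith
    · intro y' hy'
      have h1 := el_close (L := L) (by linarith) hy'
      calc K2a * el L y' ≤ K2a * (2 * el L y) := by gcongr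
        _ = 2 * K2a * el L y := by ring
        _ ≤ 2 * max K2a K2b * el L y := by gcongr
        _ ≤ _ := hy
  constructor
  · intro y hy
    obtain ⟨-, Om, hO1, hO2, hO3, hB⟩ := hN L Q R G hLb H b y hb hb1 (hcond y hy).1
    have hOp : 0 < Om := by linarith [hL100.trans (ell_ge (L := L) y)]
    have hlp : 0 < ell L y := by linarith [hL100.trans (ell_ge (L := L) y)]
    obtain ⟨h, h1, h2, h3⟩ := exS hσ hO3 (Pool.Agent.W29.RT.Loc.NN.mono (by positivity) hB (min_le_right _ _)) 0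
      (by rw [abs_zero]; norm_num)
    rw [fs_loc1 hb, zero_add] at h3
    refine ⟨y + b * h, by nlinarith, ?_, ?_⟩
    · have h4 : b * h ≤ 5 / ell L y := by
        rw [le_div_iff₀ hlp]
        have h5 : b * h * ell L y ≤ b * h * Om := by gcongr
        linarith
      linarith
    · have e1 : I * ((y + b * h : ℝ) : ℂ) = I * y + b * ((h : ℂ) * I) := by push_cast; ring
      rw [e1]
      exact h3
  · intro s hs hz
    obtain ⟨-, Om, hO1, hO2, hO3, hB⟩ := hN L Q R G hLb H b s.im hb hb1 (hcond s.im hs).1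
    have hl100 := hL100.trans (ell_ge (L := L) s.im)
    have hOp : 0 < Om := by linarith
    have hO100 : 100 ≤ Om := by linarith
    have key := hnb L Q R G hLa H b σ
    obtain ⟨c1, c2⟩ := key s hσ hb hb1 ((hcond s.im hs).2 _ (by rw [sub_self, abs_zero]; norm_num)) hz
    have hsi : s = I * (s.im : ℂ) := by
      apply Complex.ext
      · simp [c1]
      · simp
    obtain ⟨h, h1, h2, h3, h4⟩ := gapS hσ he0 he1 (by linarith)
      (Pool.Agent.W29.RT.Loc.NN.mono (by positivity) hB (min_le_left _ _)) 0 (by rw [abs_zero]; norm_num) (by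
        rw [fs_loc1 hb, ofReal_zero, zero_mul, mul_zero, add_zero, ← hsi]
        exact hz)
    rw [fs_loc1 hb, zero_add] at h3
    have hpi4 := Real.pi_lt_four
    have hpi32 : Real.pi < 3.15 := Real.pi_lt_d2
    have hg4 : b * h ≤ 4 / Om := by
      rw [le_div_iff₀ hOp]
      have := (abs_le.1 h2).2
      nlinarith
    have hg25 : b * h ≤ 1 / 25 := by
      refine hg4.trans ?_
      rw [div_le_div_iff₀ hOp (by norm_num)]
      linarith
    have hbh : 0 < b * h := by positivity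
    have e1 : s + ((b * h : ℝ) : ℂ) * I = I * s.im + b * ((h : ℂ) * I) := by
      rw [← hsi]
      push_cast
      ring
    have him : (s + ((b * h : ℝ) : ℂ) * I).im = s.im + b * h := by simp
    have hz2 : FS σ b G (s + ((b * h : ℝ) : ℂ) * I) = 0 := by
      rw [e1]
      exact h3
    refine ⟨c1, c2, b * h, hbh, ?_, hz2, ?_, ?_⟩
    · have h6 : b * h * (Om - ell L s.im) ≤ e := by
        have hLp : 0 < L := by linarith
        have hlL := Real.log_nonneg (x := L) (by linarith)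
        calc b * h * (Om - ell L s.im) ≤ (4 / Om) * Real.log L := by
              apply mul_le_mul hg4 (by linarith) (by linarith) (by positivity)
          _ ≤ (4 / L) * Real.log L := by
              gcongr
              linarith [ell_ge (L := L) s.im]
          _ = 4 * Real.log L / L := by ring
          _ ≤ e * L / L := div_le_div_of_nonneg_right (hL1 L hLc) hLp.le
          _ = e := by field_simp
      have h7 : 0 ≤ b * h * (Om - ell L s.im) := mul_nonneg hbh.le (by linarith)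
      have h8 := abs_le.1 h2
      have e2 : b * Om * h = b * h * Om := by ring
      rw [e2] at h8
      rw [abs_le]
      constructor <;> nlinarith [h8.1, h8.2]
    · refine (key _ hσ hb hb1 ((hcond s.im hs).2 _ ?_) hz2).2
      rw [him, add_sub_cancel_left, abs_of_pos hbh]
      exact hg25
    · intro z hz0 hz1 hz3
      obtain ⟨d1, -⟩ := key z hσ hb hb1 ((hcond s.im hs).2 _ (by
        rw [abs_of_nonneg (by linarith)]
        linarith)) hz0
      have hzi : z = I * (z.im : ℂ) := by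
        apply Complex.ext
        · simp [d1]
        · simp
      rcases eq_or_lt_of_le hz1 with h6 | h6
      · left
        rw [hzi, ← h6, ← hsi]
      · rcases eq_or_lt_of_le hz3 with h7 | h7
        · right
          rw [hzi, h7, e1]
          push_cast
          ring
        · exfalso
          refine h4 ((z.im - s.im) / b) (div_pos (by linarith) hb) (by
            rw [div_lt_iff₀ hb]
            linarith) ?_
          rw [fs_loc1 hb, zero_add]
          have e3 : I * (s.im : ℂ) + b * ((((z.im - s.im) / b : ℝ) : ℂ) * I) = z := by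
            have hbc : (b : ℂ) ≠ 0 := by exact_mod_cast hb.ne'
            rw [hzi]
            push_cast
            field_simp
            simp
          rw [e3]
          exact hz0

end Pool.Agent.Hp428.TS
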