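import Pool.Agent.Hp428.TD.Law

set_option autoImplicit false

/-!
# Sums and differences of two shifts of the completed L-functions of quadratic twists: definitions
-/

namespace Pool.Agent.Hp428.TS

open Complex
open Pool.Agent.Y19.QT (IsLFun sqf)
open Pool.Agent.Hp428.TD (IsCompleted)

/-- `M(s + β) + σ M(s - β)`. -/
noncomputable def shiftSum (σ β : ℝ) (M : ℂ → ℂ) (s : ℂ) : ℂ := M (s + β) + σ * M (s - β)

/-- The zero `s` of `Y` is simple and on the line `Re s = 1`, and the next zero above `s` is again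
simple and on the line, at the distance `g` with `|g l - π| ≤ ε`; `s` and `s + i g` are the only zeros
of `Y` with imaginary part in `[Im s, Im s + g]`. -/
def Regular (Y : ℂ → ℂ) (l ε : ℝ) (s : ℂ) : Prop :=
  s.re = 1 ∧ deriv Y s ≠ 0 ∧ ∃ g : ℝ, 0 < g ∧ |g * l - Real.pi| ≤ ε ∧
    Y (s + g * I) = 0 ∧ deriv Y (s + g * I) ≠ 0 ∧
    ∀ z : ℂ, Y z = 0 → s.im ≤ z.im → z.im ≤ s.im + g → z = s ∨ z = s + g * I

/-- The zeros of `M_d(s + β) + M_d(s - β)` and of `M_d(s + β) - M_d(s - β)` for the completed L-functions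
`M_d` of almost all quadratic twists `E_d : y² = x³ + a d² x + b d³` of `E : y² = x³ + a x + b`, `d`
squarefree (positive or negative): the completed L-functions exist, with a constant `c` depending on `E`
only; and for every `c` and every choice of completed L-functions `M_d` with this constant, for all `K`
and `ε > 0` there are `C`, `K'` such that for all `X ≥ 3` and for all squarefree `d`, `|d| ≤ X`, except
at most `C X / (log X)^K` of them, the following holds for both signs `σ = 1` and `σ = -1`, for all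
shifts `0 < β ≤ 1/2` and all real numbers `y` with `K' (log log X + log (2 + |y|)) ≤ β log X`, where
`ℓ = log X + log (2 + |y|)`: every zero `s` of `M_d(s + β) + σ M_d(s - β)` with `Im s = y` is simple and
on the line `Re s = 1`, and the next zero above `s` has the same properties and the distance
`(π + O(ε)) / ℓ` from `s`; and there is a zero `1 + i y'` with `y ≤ y' ≤ y + 5 / ℓ`. -/
def ShiftLaw (a b : ℤ) : Prop :=
  (∃ c : ℝ, ∀ d : ℤ, Squarefree d → ∃ M : ℂ → ℂ, IsCompleted a b d c M) ∧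
  ∀ (c : ℝ) (M : ℤ → ℂ → ℂ), (∀ d : ℤ, Squarefree d → IsCompleted a b d c (M d)) →
    ∀ (K : ℕ) (ε : ℝ), 0 < ε → ∃ C K' : ℝ, ∀ (X : ℕ) (S : Finset ℤ), 3 ≤ X → S ⊆ sqf X →
      (∀ d ∈ S, ∃ β σ y : ℝ, (σ = 1 ∨ σ = -1) ∧ 0 < β ∧ β ≤ 1 / 2 ∧
        K' * (Real.log (Real.log X) + Real.log (2 + |y|)) ≤ β * Real.log X ∧
        ((∃ s : ℂ, s.im = y ∧ shiftSum σ β (M d) s = 0 ∧
          ¬ Regular (shiftSum σ β (M d)) (Real.log X + Real.log (2 + |y|)) ε s) ∨
        ∀ y' : ℝ, y ≤ y' → y' ≤ y + 5 / (Real.log X + Real.log (2 + |y|)) →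
          shiftSum σ β (M d) (1 + y' * I) ≠ 0)) →
      (S.card : ℝ) ≤ C * X / Real.log X ^ K

end Pool.Agent.Hp428.TS
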